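import Pool.Agent.Lib.K3S.B_MS
import Pool.Agent.Lib.K3S.B_TW

/-! Project kb, outer layer: infinitely many twisted multivectors. -/

open scoped Classical Topology ContDiff ComplexOrder Matrix Manifold
open Set MeasureTheory Filter

noncomputable section

namespace Pool.Agent.Lib.KBO

open Pool.Agent.Lib.SV (E)
open Pool.Agent.Lib.HS32 Pool.Agent.Lib.HS32.Mf Pool.Agent.Lib.HLK Pool.Agent.Lib.K3S
open Pool.Agent.Lib.K3E (kan wk triv chi Tw)
open Pool.Agent.Lib.IDX (Nx Can)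

variable {n : ℕ} {M : Mf n} {I : Type} [Fintype I]

/-- The complement of the components with a positive coefficient. -/
def of (D : Dk M I) : Set M.X := {x | ∀ k, D.a k ≠ 0 → M.nrC (D.φ k) (D.f k) x ≠ 0}

open TW in
theorem tower (hKAN : K3E.St_KAN) (D : Dk M I) :
    ∃ (L : ℕ → M.Co) (φ : ℕ → M.Fam ℝ) (A : M.Co) (ψ : M.Fam ℝ), L 0 = kan M 1 ∧
    φ 0 = wk D.H 1 ∧ Can D.H (L 0) (φ 0) ∧ (∀ b, Nx (L b) (φ b) A ψ (L (b + 1)) (φ (b + 1))) ∧
    (∀ b, M.All fun e z => M.hw (φ b) e z + M.ric D.H e z = ((b * D.c : ℕ) : ℝ) • D.T e z) ∧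
    ∀ b, M.Ov fun e e' x => (L b).c e e' x * ∏ k, (D.L k).c e e' x ^ (b * D.a k) =
      (M.J e e' x).det ^ (b * D.c + 1) := by
  obtain ⟨P, χ, p1, p2, p3⟩ := prd D.wt D.a Finset.univ
  have k := fun a => hKAN n M D.H a D.kae.toMet
  have wa := wmu (k D.c).1 (wiv p1)
  have c0 : (D.c : ℝ) ≠ 0 := Nat.cast_ne_zero.2 D.c0.ne'
  have w : ∀ b : ℕ, M.WtC (Nat.rec (kan M 1) (fun _ X => sm2 X (sm2 (kan M D.c) (iv P))) b)
      (Nat.rec (wk D.H 1) (fun _ X => X + (wk D.H D.c + (-1 : ℝ) • χ)) b) := fun b => by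
    induction b with
    | zero => exact (k 1).1
    | succ b ih => exact wmu ih wa
  refine ⟨_, _, _, _, rfl, rfl, ⟨w 0, fun e _ e' _ x _ _ => by simp [kan, triv, Co.tw],
    fun e _ z _ => by simp [wk]⟩, fun b => ⟨w b, wa, w (b + 1), fun _ _ _ _ _ _ _ => rfl,
    fun _ _ _ _ => rfl⟩, fun b e he => ?_, fun b e he e' he' x hx hx' => ?_⟩
  · intro z hz
    induction b with
    | zero =>
      have := (k 1).2 e he z hz
      simp only [Nat.cast_one, one_smul] at this
      simp only [zero_mul, Nat.cast_zero, zero_smul]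
      exact (congrArg (· + M.ric D.H e z) this).trans (neg_add_cancel _)
    | succ b ih =>
      refine (congrArg (· + _) (hw_add ((w b).sm e he z hz) (wa.sm e he z hz))).trans ?_
      beta_reduce at ih ⊢
      rw [add_right_comm, ih, hw_add ((k D.c).1.sm e he z hz) ((wiv p1).sm e he z hz),
        hw_smul _ (p1.sm e he z hz), (k D.c).2 e he z hz, p3 e he z hz, add_mul, one_mul,
        Nat.cast_add, add_smul]
      simp only [Dk.T, Pi.sub_apply, Pi.neg_apply, Finset.sum_apply, Pi.smul_apply,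
        smul_neg, Finset.smul_sum, smul_smul, mul_div_cancel₀ _ c0, neg_mul,
        one_mul, neg_smul, Finset.sum_neg_distrib, sub_eq_add_neg, smul_add]
  · have h3 := P.ne e he e' he' x hx hx'
    induction b with
    | zero => simp [kan, triv, Co.tw]
    | succ b ih =>
      beta_reduce at ih h3 ⊢
      simp only [add_mul, one_mul, pow_add, Finset.prod_mul_distrib, ← p2, sm2, iv, kan, triv,
        Co.tw, mul_one] at ih ⊢
      rw [mul_right_comm _ (_ ^ D.c), ← ih]
      field_simp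

/-- Infinitely many twists carry a holomorphic multivector that vanishes on the divisor. -/
theorem inf (hHL : St_HL) (hIDX : IDX.St_IDX) (hZE : ZE.St_ZE) (hDT : St_DT) (hKAN : K3E.St_KAN)
    (hSG : St_SG) [M.Cpt] (D : Dk M I) (hχ : chi D.H 1 ≠ 0) :
    {a | ∃ W, Tw M (fun e e' x => La (M.J e e' x)) a W ∧
      M.All fun e z => W e z ≠ 0 → e.symm z ∈ of D}.Infinite := by
  obtain ⟨L, φ, A, ψ, t1, t2, t3, t4, t5, t6⟩ := tower hKAN D
  obtain ⟨D', d1, d2⟩ := hDT n M I D
  obtain ⟨a, a1, -, a3⟩ := hZE n M I D'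
  rw [d1] at a3
  rw [d1, d2] at a1
  have h1 := (hIDX n M D.H L φ A ψ D.pos D.kae t3 t4).2 fun c => hχ (by
    rw [t1, t2] at c
    simp only [chi, K3E.IDX.rk]
    exact c)
  have inj : Function.Injective fun b : ℕ => b * D.c + 1 := fun b b' h =>
    Nat.eq_of_mul_eq_mul_right D.c0 (Nat.add_right_cancel h)
  refine ((h1.sdiff (finite_lt_nat 1)).image inj.injOn).mono ?_
  rintro _ ⟨b, hb, rfl⟩
  have b1 : 1 ≤ b := Nat.le_of_not_lt hb.2
  obtain ⟨V, v1, v2, e, he, z, hz, v3⟩ : ∃ V, (lam D.H (L b) (φ b)).Sec V ∧ Hol V ∧ Nz V := by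
    have hc : (0 : ℝ) < (b * D.c : ℕ) := Nat.cast_pos.2 (Nat.mul_pos b1 D.c0)
    have t5' := t5 b
    generalize ((b * D.c : ℕ) : ℝ) = c at hc t5'
    obtain ⟨C, hC⟩ := a3 (2 * n * c) (by have := D.pos; positivity)
    refine hHL n M D.H _ _ C D.pos D.kae (t4 b).wl (fun δ hδ => ?_) hb.1
    have p : 0 < min 1 (δ / c) := lt_min one_pos (div_pos hδ hc)
    have q := a1 _ ⟨p, min_le_left _ _⟩
    refine ⟨c * min 1 (δ / c), ⟨mul_pos hc p, (le_div_iff₀' hc).1 (min_le_right _ _)⟩,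
      fun x => c * a (min 1 (δ / c)) x, q.sm.const_mul c,
      fun x => mul_nonpos_of_nonneg_of_nonpos hc.le (q.np x), fun e h z hz => ?_,
      by simpa only [mul_assoc] using hC _ ⟨p, min_le_left _ _⟩⟩
    have r := Mf.psd_rsmul (q.kae.pos e h z hz).posSemidef hc.le
    have s := ((mLAP n M _ _ q.sm q.sm).1 c e h z hz).2.2.2.1
    simp only [Pi.add_apply, Pi.smul_apply, Pi.zero_apply, sub_zero, t5' e h z hz, s,
      smul_add, smul_smul] at r ⊢
    rwa [add_right_comm]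
  have fh : ∀ k, M.All fun e z => HolN (D.f k e) z := fun k e he z hz =>
    (D.hol k).hol.ev he hz
  have o : IsOpen {x | x ∈ e.source ∧ V e (e x) ≠ 0} := isOpen_iff_mem_nhds.2 fun x hx => by
    filter_upwards [e.open_source.mem_nhds hx.1, ((v1.sm e he _ (e.map_source hx.1)).continuousAt.comp
      (e.continuousAt hx.1)).eventually_ne hx.2] with y h1 h2 using ⟨h1, h2⟩
  have dn : Dense (⋂ k, {x | M.nrC (D.φ k) (D.f k) x ≠ 0}) := dense_iInter_of_isOpen
    (fun k => isOpen_ne_fun (MS.sg hSG D k).1.sm.continuous continuous_const)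
    fun k => (MS.sg hSG D k).2.1
  obtain ⟨x, x1, x2⟩ := dn.inter_open_nonempty _ o ⟨e.symm z, e.map_target hz, by rwa [e.right_inv hz]⟩
  refine ⟨fun e z => (∏ k, D.f k e z ^ (b * D.a k)) • V e z, ⟨fun e he z hz i => ?_,
    ⟨e, he, e x, e.map_source x1.1, smul_ne_zero
      (Finset.prod_ne_zero_iff.2 fun k _ => pow_ne_zero _ ?_) x1.2⟩,
    fun e he e' he' x hx hx' => ?_⟩, fun e he z hz h k hk => ?_⟩
  · filter_upwards [eventually_all.2 fun k => fh k e he z hz, v2 e he z hz i] with w h1 h2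
    exact (HasFDerivAt.finsetProd fun k _ => ((h1 k).fun_pow _).hasFDerivAt).differentiableAt.mul h2
  · have := mem_iInter.1 x2 k
    rwa [mem_ofPred_eq, Mf.nrC_ne, (D.hol k).toSecC.ne_iff he x1.1] at this
  · have h2 := fun i => (D.hol i).cmp e he e' he' x hx hx'
    have h3 := t6 b e he e' he' x hx hx'
    have h4 := (L b).ne e he e' he' x hx hx'
    have h5 : ∏ k, (D.L k).c e e' x ^ (b * D.a k) ≠ 0 :=
      Finset.prod_ne_zero_iff.2 fun k _ => pow_ne_zero _ ((D.L k).ne e he e' he' x hx hx')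
    beta_reduce at h2 h3 h4 ⊢
    rw [v1.cmp e he e' he' x hx hx', ← h3]
    simp only [lam, Matrix.smul_mulVec, Matrix.mulVec_smul, smul_smul, h2, mul_pow,
      Finset.prod_mul_distrib]
    refine congrArg (· • _) ?_
    field_simp
  · rw [Mf.nrC_ne, (D.hol k).toSecC.ne_iff he (e.map_target hz), e.right_inv hz]
    exact fun c => h (by
      beta_reduce
      rw [Finset.prod_eq_zero (Finset.mem_univ k)
        (by rw [c, zero_pow (Nat.mul_ne_zero (by omega) hk)]), zero_smul])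

end Pool.Agent.Lib.KBO
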