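import Pool.Agent.Lib.KBO.All0
import Pool.Agent.Lib.KA.Core
import Pool.Agent.Lib.KC.All
import Pool.Agent.Lib.KBE.All
import Pool.Agent.Lib.KT.B_AIC
import Pool.Agent.Lib.KT.B_BS
import Pool.Agent.Lib.KT.B_CHG
import Pool.Agent.Lib.KT.B_COE
import Pool.Agent.Lib.KT.B_CRM
import Pool.Agent.Lib.KT.B_DCO
import Pool.Agent.Lib.KT.B_DRV
import Pool.Agent.Lib.KT.B_EXL
import Pool.Agent.Lib.KT.B_EXT
import Pool.Agent.Lib.KT.B_FIB
import Pool.Agent.Lib.KT.B_FIN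
import Pool.Agent.Lib.KT.B_FLD
import Pool.Agent.Lib.KT.B_JQ
import Pool.Agent.Lib.KT.B_KIT
import Pool.Agent.Lib.KT.B_LAM
import Pool.Agent.Lib.KT.B_LT
import Pool.Agent.Lib.KT.B_MIN
import Pool.Agent.Lib.KT.B_MOD
import Pool.Agent.Lib.KT.B_NEG
import Pool.Agent.Lib.KT.B_NUM
import Pool.Agent.Lib.KT.B_PDT
import Pool.Agent.Lib.KT.B_POL
import Pool.Agent.Lib.KT.B_PSI
import Pool.Agent.Lib.KT.B_QUO
import Pool.Agent.Lib.KT.B_RAT
import Pool.Agent.Lib.KT.B_REF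
import Pool.Agent.Lib.KT.B_RIE
import Pool.Agent.Lib.KT.B_RK
import Pool.Agent.Lib.KT.B_SCL
import Pool.Agent.Lib.KT.B_SIW
import Pool.Agent.Lib.KT.B_ST1
import Pool.Agent.Lib.KT.B_SYS
import Pool.Agent.Lib.KT.B_TEN
import Pool.Agent.Lib.KT.B_TT
import Pool.Agent.Lib.KT.B_TUB
import Pool.Agent.Lib.KT.B_VAL
import Pool.Agent.Lib.KT.B_WED
import Pool.Agent.Lib.KT.B_WRG
import Pool.Agent.Lib.KT.B_WRO

/-! Project kb: the theorem. -/

namespace Pool.Agent.Lib.KBO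

open Pool.Agent.Lib.KT

theorem aTOP : St_TOP := by
  have kit := tKIT
  have ext := tEXT tEXL kit
  have num := tNUM ext
  have ten := tTEN kit ext tTT
  have neg := tNEG tPOL
  have wrg := tWRG (tWRO kit) tTT ext num
  have wed := tWED tMIN wrg ext num kit tSCL
  have ref := tREF tSCL kit
  have bs := tBS kit neg ten (tLT kit)
  have sys := tSYS ten kit
  exact top_of (KA.core HS21.st_AUBIN (tCRM tLAM) (tPSI tQUO tSCL)
    (tST1 (tFLD num tSCL) (tSIW num) (tRK num) ref wed bs (tAIC (tTUB ten) ten) sys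
      (tDRV tCOE wrg kit) (tDCO tCOE wrg ten kit) ten KC.aGEN KBE.bDER)
    bs (tCHG ten ref (tRIE tEXL) kit) sys (tMOD ten neg kit) (tRK num)
    (tFIB wed tJQ (tPDT neg num tPOL kit) neg tSCL) tRAT (tVAL ten kit) (tEX1 num) (tFIN ext kit)
    KBE.aEF KBE.bFG KBE.bHYP KC.aEQA KC.aDGA KC.aCUA KC.aGMK KC.aTOP)

end Pool.Agent.Lib.KBO
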