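import Pool.Agent.Lib.KBO.Top
import Pool.Agent.Lib.KBO.Inf
import Pool.Agent.Lib.K3S.All

/-! Project kb, outer layer: the statement follows from the core. -/

namespace Pool.Agent.Lib.KBO

open Pool.Agent.Lib.HS32 Pool.Agent.Lib.HLK Pool.Agent.Lib.K3S
open Pool.Agent.Lib.K3E (Tw)

theorem top_of (h : ∀ (n : ℕ) (M : Mf n) [M.Cpt] (I : Type) [Fintype I] (D : Dk M I),
    {a | ∃ W, Tw M (fun e e' x => La (M.J e e' x)) a W ∧
      M.All fun e z => W e z ≠ 0 → e.symm z ∈ of D}.Infinite →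
    ∃ m, 0 < m ∧ ∃ t, M.HSec m t ∧ ∃ e ∈ M.C, ∃ z ∈ e.target, t e z ≠ 0) : St_TOP :=
  top (fun n M _ I _ D hχ => h n M I D (inf aHL IDX.aIDX ZE.ze2 aDT K3E.bKAN bSG D hχ))
    bRS bBRG aFRM K3E.bMER

end Pool.Agent.Lib.KBO
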