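import Pool.Agent.Lib.KT.Top
import Pool.Agent.Lib.KC.Blue
import Pool.Agent.Lib.DK.Rho
import Pool.Agent.Lib.KBO.Inf

/-! Project kb: from the rows to the core. -/

open scoped Classical Topology Matrix
open Set Filter Complex

noncomputable section

namespace Pool.Agent.Lib.KBO

open Pool.Agent.Lib.SV (E nsq)
open Pool.Agent.Lib.HS32 Pool.Agent.Lib.HLK Pool.Agent.Lib.K3S Pool.Agent.Lib.KT
open Pool.Agent.Lib.K3E (Tw)
open Pool.Agent.Lib.RAA (kp)
open Pool.Agent.Lib.KC (Sx)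

/-- Domination for the quotients of proportional tensors. -/
def St_RHO : Prop := ∀ (n : ℕ) (M : Mf n) [M.Cpt] (I : Type) [Fintype I] (D : Dk M I) (τ : Tn M),
  τ.N ≤ τ.B → (∀ x ∈ τ.O, x ∈ of D) → ∀ (ι : Type) [Fintype ι] [Nonempty ι] (g : ι → M.X → ℂ)
    (t : ι → M.Fam ((Fin τ.N → Fin n) → ℂ)), (∀ i, Hol (t i)) → (∀ i, M.Ov fun e e' x =>
      t i e (e x) = ((M.J e e' x).det ^ τ.B)⁻¹ • kp τ.N (M.J e e' x) *ᵥ t i e' (e' x)) →
    (∀ i, M.All fun e z => τ.s e z ≠ 0 → t i e z = g i (e.symm z) • τ.s e z) →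
    DK.Rho M D.H τ.O fun x => 1 + ∑ i, normSq (g i x)

theorem glue (hCRM : St_CRM) (hPSI : St_PSI) (hST1 : St_ST1) (hEF : KBE.St_EF)
    (hFG : KBE.St_FG) (hHYP : KBE.St_HYP) (hCHG : St_CHG) (hSYS : St_SYS) (hTRF : St_TRF)
    (hMOD : St_MOD) (hBS : St_BS) (hRK : St_RK) (hFIB : St_FIB) (hRAT : KT.St_RAT)
    (hVAL : St_VAL) (hEX1 : St_EX1) (hFIN : KT.St_FIN) (hRHO : St_RHO) (hGMK : KC.St_GMK)
    (hEQA : KC.St_EQA) (hDGA : KC.St_DGA) (hCUA : KC.St_CUA) (hTOP : KC.St_TOP)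
    (n : ℕ) (M : Mf n) [M.Cpt] (I : Type) [Fintype I] (D : Dk M I)
    (hinf : {a | ∃ W, Tw M (fun e e' x => La (M.J e e' x)) a W ∧
      M.All fun e z => W e z ≠ 0 → e.symm z ∈ of D}.Infinite) :
    ∃ m, 0 < m ∧ ∃ t, M.HSec m t ∧ ∃ e ∈ M.C, ∃ z ∈ e.target, t e z ≠ 0 := by
  have met := D.kae.toMet
  obtain ⟨N, a, s, pro, hs⟩ := hCRM n M (of D) hinf
  obtain ⟨b₀, hb₀⟩ := hPSI n M D.H N a s met pro
  obtain ⟨A, F, _, _, ev, b₁, G₁, c, fm, eft, o₁, i₁, sys, frc, der⟩ := hST1 n M D.H b₀ D.kae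
  obtain ⟨K, clo, -, deg, l, cut⟩ := hEF F G₁ c sys der
  obtain ⟨e1, e2⟩ := hFG F K
  obtain ⟨k, t, θ₁, P₁, h₁⟩ := hHYP ℂ K
  obtain ⟨w, z, θ, P, h₂⟩ := hHYP K F
  obtain ⟨b, q, m, o₂, q0, chg⟩ := hCHG n M D.H A F ev b₁ G₁ (Sx k ⊕ Option (Fin w))
    (Sum.elim (fun o => ((o.elim θ₁ t : K) : F)) fun o => o.elim θ z) met fm i₁ frc
  obtain ⟨G, i₂, -⟩ := hSYS n M D.H A F ev b met fm
  obtain ⟨c1, c2, c3⟩ := chg G i₂
  obtain ⟨t1, t2, t3⟩ := hTRF F K
  obtain ⟨frc', cut', deg'⟩ := t3 G₁ G c2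
  obtain ⟨R, fn, md⟩ := hMOD n M D.H A F ev b G met fm i₂ (frc' frc)
  choose hr hg using fun i => (md.mem 0 1 _).1 (c1 i)
  let r : Sx k ⊕ Option (Fin w) → R := fun i => ⟨_, hr i⟩
  have ok := hBS n M D.H b D.kae
  have gk := hGMK n M (b.bs ok)
  obtain ⟨adj, m1, m2, m3⟩ := hEQA n M (b.bs ok) F (b.fd ok md) K k (fun i => r (.inl i)) t θ₁ P₁
    h₁ rfl fun _ => rfl
  have top : IntermediateField.adjoin K (range fun o : Option (Fin w) => o.elim θ z) = ⊤ := by
    rw [← h₂.gen, Option.range_eq]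
    rfl
  choose ra rb using md.rep
  let u : Fin (k + w) → A := Fin.append (fun i => ⟨_, ra (r (.inl (some i)))⟩)
    fun i => ⟨_, ra (r (.inr (some i)))⟩
  obtain ⟨x₀, rk⟩ := (hRK n M D.H A F ev _ u met fm).1.1 (by
    have : (fun i => ev (u i)) = Fin.append (fun i => (t i : F)) z := funext fun i => by
      induction i using Fin.addCases <;> simp only [u, Fin.append_left, Fin.append_right, rb] <;> rfl
    exact this ▸ t1 k w t z h₁.ind h₂.ind)
  obtain ⟨sub, j, ε, f1, f2, f3, f4, f5⟩ := hFIB n M D.H b k w (fun i => fn (r (.inl i)))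
    (fun i => fn (r (.inr (some i)))) D.kae (fun i => hg _) (fun i => hg _) ⟨x₀, by
      have : (fun i => (u i).1) = Fin.append (fun i => fn (r (.inl (some i))))
          fun i => fn (r (.inr (some i))) := funext fun i => by
        induction i using Fin.addCases <;> simp only [u, Fin.append_left, Fin.append_right]
      exact this ▸ rk⟩
  let An : KC.An M :=
    { toBs := b.bs ok, k := k, w := w, s := fun i => fn (r (.inl i))
      z := fun i => fn (r (.inr (some i))), N := fun y => 1 + ∑ i, normSq (fn (r i) y)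
      j := j, ε := ε, c0 := c, l := l, m1 := m1, hs := fun i => hg _, hz := fun i => hg _
      cN := continuousOn_const.add (continuousOn_finsetSum _ fun i _ =>
        continuous_normSq.comp_continuousOn (gk.cnt (hg i)))
      hN := fun y _ => by
        rw [Fintype.sum_sum_type]
        exact add_le_add_right (le_add_of_nonneg_right
          (Finset.sum_nonneg fun _ _ => normSq_nonneg _)) _
      hm := fun y _ => m2 y, dm := m3, sub := sub, cj := f1, jp := f2, ε0 := f3, ij := f4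
      push := f5
      gen := fun x => by
        obtain ⟨g, g1, g2⟩ := sys.gen x
        obtain ⟨g3, g4⟩ := (md.mem x c g).1 (c2 x c g1)
        refine ⟨_, g4, by_contra fun h => g2 (congrArg Subtype.val (md.inj ⟨g, g3⟩ fun y hy =>
          by_contra fun h' => h ⟨y, hy, h'⟩))⟩
      deg := hDGA n M (b.bs ok) F (b.fd ok md) K k w (fun i => r (.inl i))
        (fun i => r (.inr (some i))) (r (.inr none)) P adj clo h₂ (fun i => hg _) (fun i => hg _)
        (hg _) (by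
          have : (fun o : Option (Fin w) => ((o.elim (r (.inr none))
              (fun i => r (.inr (some i))) : R) : F)) = fun o => o.elim θ z :=
            funext fun o => by cases o <;> rfl
          exact this ▸ deg' q m q0 c3 _ _ (deg _ _ top))
      cut := fun m => hCUA n M (b.bs ok) F (b.fd ok md) k l m _
        (cut' R _ _ l m (cut m R _ _ md.frc adj)) }
  choose T T1 T2 T3 using fun i => hEX1 n M D.H b _ met (hg i)
  obtain ⟨δ, α, C, d0, a0, ρ, r1, r2⟩ := hRHO n M I D b.B b.nb.le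
    (fun x hx => hs x (hb₀ x (o₁ (o₂ hx)))) _ (fun i => fn (r i)) T T1 T2 T3
  obtain ⟨c', q', Q, v, v1, v2, v3⟩ := hVAL n M D.H b _ (fun i => fn (r i)) met hg
    (hRAT n M D.H A F ev b G R fn _ r md (by
      have := t2 _ _ _ _ adj top
      refine Eq.trans (congrArg (fun f => IntermediateField.adjoin ℂ (range f))
        (funext fun i => ?_)) this
      cases i <;> rfl))
  obtain ⟨x, x0, g, g1, g2⟩ := hTOP n M An
    ⟨δ, α, C, d0, a0, fun i => 1 / (i + 1 : ℝ), ρ, fun i => ⟨by positivity, (r1 i).1, (r1 i).2.2.1,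
      (r1 i).2.1, (r1 i).2.2.2⟩, tendsto_one_div_add_atTop_nhds_zero_nat, fun y hy =>
      (r2 {y} isCompact_singleton (singleton_subset_iff.2 hy)).mono fun _ h => h y rfl⟩
    ⟨c', q', Q, v, v1, v2, fun x a f κ e _ h1 h2 h3 h4 => ⟨f, v3 x a f κ e h1.1 h2 h3 h4, h1.2⟩⟩
  exact ⟨_, Nat.mul_pos x0 b.d0, hFIN n M D.H b x g met g1 g2⟩

end Pool.Agent.Lib.KBO
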