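import Pool.Agent.Lib.K3S.Blue

/-! Project kb, outer layer: the statement and its reduction to the manifold layer. -/

open scoped Classical Topology ContDiff ComplexOrder Matrix Manifold
open Set MeasureTheory Filter

noncomputable section

namespace Pool.Agent.Lib.KBO

open Pool.Agent.Lib.SV (E Pluri)
open Pool.Agent.Lib.HS32 Pool.Agent.Lib.GH Pool.Agent.Lib.K3S
open Pool.Agent.Lib.K3E (Forms chi)
open Pool.Agent.Lib.HS.BBR (mf)
open Pool.Agent.Lib.RB.R32 (fam)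

/-- The theorem. -/
def St_TOP : Prop := ∀ (n : ℕ) (X ι I : Type) [TopologicalSpace X] [ChartedSpace (E n) X]
  [IsManifold 𝓘(ℂ, E n) ω X] [CompactSpace X] [T2Space X] [ConnectedSpace X] [Fintype I]
  (G β : X → Mat n) (U : ι → Set X) (f : I → ι → X → ℂ) (u : I → ι → ι → X → ℂ) (a : I → ℚ),
  Kaehler G → Semi n G β → Ctr n β U f u → (∀ k, 0 ≤ a k) → NefW n G β U u (fun k => -a k) →
  ∑ p ∈ Finset.range (n + 1), (-1 : ℤ) ^ p * Module.finrank ℂ (Forms n X p) ≠ 0 →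
  ∃ m, 0 < m ∧ ∃ s ∈ Pluri n X m, s ≠ 0

/-- The theorem on the manifold layer. -/
def St_MS : Prop := ∀ (n : ℕ) (M : Mf n) [M.Cpt] (I : Type) [Fintype I] (D : Dk M I),
  chi D.H 1 ≠ 0 → ∃ m, 0 < m ∧ ∃ t, M.HSec m t ∧ ∃ e ∈ M.C, ∃ z ∈ e.target, t e z ≠ 0

theorem top (hMS : St_MS) (hRS : St_RS) (hBRG : St_BRG) (hFRM : K3E.St_FRM) (hMER : K3E.St_MER) :
    St_TOP := by
  intro n X ι I _ _ _ _ _ _ _ G β U f u a hG hβ hC ha hN hχ
  rcases Nat.eq_zero_or_pos n with rfl | hn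
  · exact ⟨1, one_pos, 1, fun x => differentiable_of_subsingleton _, one_ne_zero⟩
  obtain ⟨D, hD⟩ := hBRG n X ι I G β U f u a hC hn hG hβ ha hN
  obtain ⟨r1, -, r3⟩ := hRS n (mf n X) ι U hC.opn hC.cov
  have : (KP.T6.rs (mf n X) (U := U) hC.opn hC.cov).Cpt := ⟨‹_›, ‹_›, ‹_›⟩
  obtain ⟨m, hm, t, t1, t2⟩ := hMS n _ I D fun h => hχ (by
    rw [hD, r1] at h
    rw [← Finset.sum_range_reflect]
    refine Eq.trans ?_ ((congrArg ((-1 : ℤ) ^ n * ·) h).trans (mul_zero _))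
    rw [chi, Finset.mul_sum]
    refine Finset.sum_congr rfl fun q hq => ?_
    obtain ⟨p, rfl⟩ := Nat.exists_eq_add_of_le' (Nat.lt_succ_iff.1 (Finset.mem_range.1 hq))
    rw [Nat.add_sub_cancel, Nat.add_sub_cancel, hFRM _ X (fam G) p q rfl, ← mul_assoc, ← pow_add,
      add_assoc, pow_add, ← two_mul, pow_mul, neg_one_sq, one_pow, mul_one])
  obtain ⟨t', t3, t4⟩ := r3 m t t1 t2
  exact ⟨m, hm, (hMER n X).2 m t' t3 t4⟩

end Pool.Agent.Lib.KBO
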